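import Mathlib

set_option autoImplicit false

/-! Self-similar profiles of the focusing wave equation: the exterior of the light cone. -/

namespace Pool.Agent.H233Z.Wave

open Set Filter Topology

/-- a `C²` solution of the profile equation, `α = 2/(p-1)`, `q = p-1` -/
structure Sol (α q : ℝ) (f f1 f2 : ℝ → ℝ) : Prop where
  c0 : ContinuousOn f (Ici 0)
  c1 : ContinuousOn f1 (Ici 0)
  d0 : ∀ y, 0 < y → HasDerivAt f (f1 y) y
  d1 : ∀ y, 0 < y → HasDerivAt f1 (f2 y) y
  ode : ∀ y, 0 < y → (1 - y ^ 2) * f2 y + (2 / y - 2 * (α + 1) * y) * f1 y - α * (α + 1) * f y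
    + |f y| ^ q * f y = 0

lemma Sol.neg {α q : ℝ} {f f1 f2 : ℝ → ℝ} (h : Sol α q f f1 f2) :
    Sol α q (fun y => -f y) (fun y => -f1 y) (fun y => -f2 y) where
  c0 := h.c0.neg
  c1 := h.c1.neg
  d0 y hy := (h.d0 y hy).neg
  d1 y hy := (h.d1 y hy).neg
  ode y hy := by
    have := h.ode y hy
    rw [abs_neg]
    linarith

lemma right_pos {g : ℝ → ℝ} {g' x : ℝ} (h : HasDerivAt g g' x) (h0 : g x = 0) (hp : 0 < g') :
    ∀ᶠ y in 𝓝[>] x, 0 < g y := by
  have h1 := (hasDerivAt_iff_tendsto_slope_left_right.1 h).2.eventually (lt_mem_nhds hp)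
  filter_upwards [h1, self_mem_nhdsWithin] with y hy hxy
  rw [slope_def_field, h0, sub_zero] at hy
  have : 0 < y - x := sub_pos.2 hxy
  exact (div_pos_iff_of_pos_right this).1 hy

lemma left_neg {g : ℝ → ℝ} {g' x : ℝ} (h : HasDerivAt g g' x) (h0 : g x = 0) (hp : 0 < g') :
    ∀ᶠ y in 𝓝[<] x, g y < 0 := by
  have h1 := (hasDerivAt_iff_tendsto_slope_left_right.1 h).1.eventually (lt_mem_nhds hp)
  filter_upwards [h1, self_mem_nhdsWithin] with y hy hxy
  rw [slope_def_field, h0, sub_zero] at hy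
  have : y - x < 0 := sub_neg.2 hxy
  by_contra hc
  push Not at hc
  have := div_nonpos_of_nonneg_of_nonpos hc this.le
  linarith

/-- outside the cone a solution through an equilibrium is constant -/
lemma ext_unique {α q : ℝ} {f f1 f2 : ℝ → ℝ} (h : Sol α q f f1 f2) (hα : 1 / 2 < α) (hq : 1 < q)
    (e : ℝ) (he : |e| ^ q * e - α * (α + 1) * e = 0) (h1 : f 1 = e) :
    ∀ y, 1 ≤ y → f y = e := by
  intro R hR
  set N : ℝ → ℝ := fun t => |t| ^ q * t - α * (α + 1) * t with hN
  have hNc : ContDiff ℝ 1 N := by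
    have : ContDiff ℝ 1 (fun t : ℝ => ‖t‖ ^ q) := contDiff_norm_rpow hq
    simp only [Real.norm_eq_abs] at this
    exact (this.mul contDiff_id).sub (contDiff_const.mul contDiff_id)
  have hsub : Icc (1 : ℝ) R ⊆ Ici 0 := fun y hy => le_trans zero_le_one hy.1
  have hK : IsCompact (f '' Icc 1 R) := isCompact_Icc.image_of_continuousOn (h.c0.mono hsub)
  obtain ⟨L, hL⟩ := (hNc.locallyLipschitz.locallyLipschitzOn
    (s := f '' Icc 1 R)).exists_lipschitzOnWith_of_compact hK
  have hb : ∀ y ∈ Icc 1 R, |N (f y)| ≤ L * |f y - e| := by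
    intro y hy
    have := hL.dist_le_mul (f y) ⟨y, hy, rfl⟩ (f 1) ⟨1, ⟨le_rfl, hR⟩, rfl⟩
    rw [h1, Real.dist_eq, Real.dist_eq] at this
    have h0 : N e = 0 := he
    rwa [h0, sub_zero] at this
  set k : ℝ := 2 * α - 1 with hk
  have hk0 : 0 < k := by linarith
  set C : ℝ := ((L : ℝ) + 1) ^ 2 / (2 * k) with hC
  have hC0 : 0 ≤ C := by positivity
  set W : ℝ → ℝ := fun y => (y ^ 2 - 1) * f1 y ^ 2 + (f y - e) ^ 2 with hW
  set g : ℝ → ℝ := fun y => Real.exp (-C * y) * W y with hg
  have hder : ∀ y, 0 < y → HasDerivAt g (Real.exp (-C * y) * (-C) * W y + Real.exp (-C * y) *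
      ((2 * y) * f1 y ^ 2 + (y ^ 2 - 1) * (2 * f1 y * f2 y) + 2 * (f y - e) * f1 y)) y := by
    intro y hy
    have a1 : HasDerivAt (fun y : ℝ => Real.exp (-C * y)) (Real.exp (-C * y) * (-C)) y := by
      have := ((hasDerivAt_id y).const_mul (-C)).exp
      simpa using this
    have a2 : HasDerivAt W ((2 * y) * f1 y ^ 2 + (y ^ 2 - 1) * (2 * f1 y * f2 y)
        + 2 * (f y - e) * f1 y) y := by
      have b1 : HasDerivAt (fun y : ℝ => y ^ 2 - 1) (2 * y) y := by
        simpa using ((hasDerivAt_id y).pow 2).sub_const 1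
      have b2 : HasDerivAt (fun y => f1 y ^ 2) (2 * f1 y * f2 y) y := by
        simpa using (h.d1 y hy).fun_pow 2
      have b3 : HasDerivAt (fun y => (f y - e) ^ 2) (2 * (f y - e) * f1 y) y := by
        simpa using ((h.d0 y hy).sub_const e).fun_pow 2
      exact (b1.mul b2).add b3
    exact a1.mul a2
  have hanti : AntitoneOn g (Icc 1 R) := by
    apply antitoneOn_of_deriv_nonpos (convex_Icc 1 R)
    · intro y hy
      exact (hder y (by linarith [hy.1])).continuousAt.continuousWithinAt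
    · intro y hy
      rw [interior_Icc] at hy
      exact (hder y (by linarith [hy.1])).differentiableAt.differentiableWithinAt
    · intro y hy
      rw [interior_Icc] at hy
      have hy0 : 0 < y := by linarith [hy.1]
      rw [(hder y hy0).deriv]
      have ho := h.ode y hy0
      have hb' := hb y ⟨hy.1.le, hy.2.le⟩
      have hNy : N (f y) = |f y| ^ q * f y - α * (α + 1) * f y := rfl
      have hE := Real.exp_pos (-C * y)
      have key : (2 * y) * f1 y ^ 2 + (y ^ 2 - 1) * (2 * f1 y * f2 y) + 2 * (f y - e) * f1 y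
          ≤ C * W y := by
        have e1 : (y ^ 2 - 1) * f2 y = (2 / y - 2 * (α + 1) * y) * f1 y + N (f y) := by
          rw [hNy]; linarith
        have e2 : (2 * y) * f1 y ^ 2 + (y ^ 2 - 1) * (2 * f1 y * f2 y) + 2 * (f y - e) * f1 y
            = -2 * ((2 * α + 1) * y - 2 / y) * f1 y ^ 2 + 2 * f1 y * (N (f y) + (f y - e)) := by
          have : (y ^ 2 - 1) * (2 * f1 y * f2 y) = 2 * f1 y * ((y ^ 2 - 1) * f2 y) := by ring
          rw [this, e1]; ring
        have e3 : k ≤ (2 * α + 1) * y - 2 / y := by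
          have : 2 / y ≤ 2 := by
            rw [div_le_iff₀ hy0]; linarith [hy.1]
          nlinarith [hy.1]
        have e4 : |N (f y) + (f y - e)| ≤ (L + 1) * |f y - e| := by
          have := abs_add_le (N (f y)) (f y - e)
          linarith
        have e5 : (N (f y) + (f y - e)) ^ 2 ≤ ((L : ℝ) + 1) ^ 2 * (f y - e) ^ 2 := by
          have := pow_le_pow_left₀ (abs_nonneg _) e4 2
          rwa [mul_pow, sq_abs, sq_abs] at this
        have e6 : 2 * f1 y * (N (f y) + (f y - e)) ≤
            2 * k * f1 y ^ 2 + (N (f y) + (f y - e)) ^ 2 / (2 * k) := by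
          have : 0 ≤ (2 * k * f1 y - (N (f y) + (f y - e))) ^ 2 / (2 * k) := by positivity
          have e : (2 * k * f1 y - (N (f y) + (f y - e))) ^ 2 / (2 * k) =
              2 * k * f1 y ^ 2 + (N (f y) + (f y - e)) ^ 2 / (2 * k)
                - 2 * f1 y * (N (f y) + (f y - e)) := by
            field_simp; ring
          linarith
        have e7 : (N (f y) + (f y - e)) ^ 2 / (2 * k) ≤ C * (f y - e) ^ 2 := by
          rw [hC, div_mul_eq_mul_div]
          exact div_le_div_of_nonneg_right e5 (by positivity)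
        have e8 : 0 ≤ C * ((y ^ 2 - 1) * f1 y ^ 2) := by
          have : 0 ≤ y ^ 2 - 1 := by nlinarith [hy.1]
          positivity
        have e9 : C * W y = C * ((y ^ 2 - 1) * f1 y ^ 2) + C * (f y - e) ^ 2 := by
          simp only [hW]; ring
        have e10 : k * f1 y ^ 2 ≤ ((2 * α + 1) * y - 2 / y) * f1 y ^ 2 :=
          mul_le_mul_of_nonneg_right e3 (sq_nonneg _)
        rw [e2, e9]; nlinarith
      nlinarith
  have hle := hanti ⟨le_rfl, hR⟩ ⟨hR, le_rfl⟩ hR
  have hg1 : g 1 = 0 := by simp [hg, hW, h1]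
  rw [hg1] at hle
  have hWR : W R ≤ 0 := by
    have hE := Real.exp_pos (-C * R)
    by_contra hc
    push Not at hc
    have : 0 < g R := mul_pos hE hc
    linarith
  have h3 : 0 ≤ (R ^ 2 - 1) * f1 R ^ 2 := by
    have : 0 ≤ R ^ 2 - 1 := by nlinarith
    positivity
  have h4 : (f R - e) ^ 2 ≤ 0 := by
    simp only [hW] at hWR; linarith
  have := pow_eq_zero_iff (two_ne_zero) |>.1 (le_antisymm h4 (sq_nonneg _))
  linarith

/-- outside the cone a solution that starts above the constant solution increases -/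
lemma ext_grow {α q : ℝ} {f f1 f2 : ℝ → ℝ} (h : Sol α q f f1 f2) (hα : 0 < α) (hq : 0 < q)
    (hb : 0 < f 1) (h1 : α * (α + 1) < f 1 ^ q) : ∀ y, 1 ≤ y → f 1 ≤ f y := by
  have hN : ∀ t, f 1 ≤ t → 0 < |t| ^ q * t - α * (α + 1) * t := by
    intro t ht
    have ht0 : 0 < t := lt_of_lt_of_le hb ht
    rw [abs_of_pos ht0]
    have := Real.rpow_le_rpow hb.le ht hq.le
    nlinarith
  have mono : ∀ R, 1 ≤ R → (∀ y ∈ Ioo 1 R, 0 < f1 y) → f 1 ≤ f R := by
    intro R hR hp
    have : MonotoneOn f (Icc 1 R) := by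
      apply monotoneOn_of_deriv_nonneg (convex_Icc 1 R)
      · intro y hy
        exact (h.d0 y (by linarith [hy.1])).continuousAt.continuousWithinAt
      · intro y hy
        rw [interior_Icc] at hy
        exact (h.d0 y (by linarith [hy.1])).differentiableAt.differentiableWithinAt
      · intro y hy
        rw [interior_Icc] at hy
        rw [(h.d0 y (by linarith [hy.1])).deriv]
        exact (hp y hy).le
    exact this ⟨le_rfl, hR⟩ ⟨hR, le_rfl⟩ hR
  have h11 : 0 < f1 1 := by
    have ho := h.ode 1 one_pos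
    have := hN (f 1) le_rfl
    have e : 2 * α * f1 1 = |f 1| ^ q * f 1 - α * (α + 1) * f 1 := by
      norm_num at ho; linarith
    by_contra hc
    push Not at hc
    nlinarith
  have pos : ∀ y, 1 ≤ y → 0 < f1 y := by
    intro R hR
    by_contra hc
    push Not at hc
    have hsub : Icc (1 : ℝ) R ⊆ Ici 0 := fun y hy => le_trans zero_le_one hy.1
    have hS : IsCompact (Icc 1 R ∩ f1 ⁻¹' Iic 0) :=
      isCompact_Icc.of_isClosed_subset
        ((h.c1.mono hsub).preimage_isClosed_of_isClosed isClosed_Icc isClosed_Iic)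
        inter_subset_left
    obtain ⟨s, ⟨hs1, hs2⟩, hs3⟩ := hS.exists_isLeast ⟨R, ⟨hR, le_rfl⟩, hc⟩
    have hs2' : f1 s ≤ 0 := hs2
    have hs0 : 1 < s := by
      rcases hs1.1.eq_or_lt with h' | h'
      · rw [← h'] at hs2'; linarith
      · exact h'
    have hp : ∀ y ∈ Ioo 1 s, 0 < f1 y := by
      intro y hy
      by_contra hc'
      push Not at hc'
      have := hs3 ⟨⟨hy.1.le, hy.2.le.trans hs1.2⟩, hc'⟩
      linarith [hy.2]
    have hev : ∀ᶠ y in 𝓝[<] s, 0 < f1 y := by
      filter_upwards [Ioo_mem_nhdsLT hs0] with y hy using hp y hy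
    have hz : f1 s = 0 := by
      apply le_antisymm hs2'
      have hc : Tendsto f1 (𝓝[<] s) (𝓝 (f1 s)) :=
        (h.d1 s (by linarith)).continuousAt.tendsto.mono_left nhdsWithin_le_nhds
      exact ge_of_tendsto hc (hev.mono fun y hy => hy.le)
    have h2 : 0 < f2 s := by
      have ho := h.ode s (by linarith)
      have := hN (f s) (mono s hs0.le hp)
      rw [hz] at ho
      have h3 : 0 < s ^ 2 - 1 := by nlinarith
      by_contra hc'
      push Not at hc'
      nlinarith
    obtain ⟨y, hy1, hy2⟩ := (hev.and (left_neg (h.d1 s (by linarith)) hz h2)).exists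
    linarith
  intro y hy
  exact mono y hy fun z hz => pos z hz.1.le

end Pool.Agent.H233Z.Wave
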