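import Pool.Agent.H233Z.Wave.Ext

set_option autoImplicit false

/-! Self-similar profiles of the focusing wave equation: the interior of the light cone. -/

namespace Pool.Agent.H233Z.Wave

open Set Filter Topology

lemma abs_pow_split (t q : ℝ) (hq : 0 < q) : |t| ^ (q + 2) = |t| ^ q * t ^ 2 := by
  rw [Real.rpow_add' (abs_nonneg t) (by linarith), Real.rpow_two, sq_abs]

lemma Sol.dG {α q : ℝ} {f f1 f2 : ℝ → ℝ} (h : Sol α q f f1 f2) (hq : 0 < q) (y : ℝ) (hy : 0 < y) :
    HasDerivAt (fun y => |f y| ^ (q + 2)) ((q + 2) * |f y| ^ q * f y * f1 y) y := by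
  have := (hasDerivAt_abs_rpow (f y) (p := q + 2) (by linarith)).comp y (h.d0 y hy)
  simpa [Function.comp_def] using this

lemma Sol.cG {α q : ℝ} {f f1 f2 : ℝ → ℝ} (h : Sol α q f f1 f2) (hq : 0 < q) :
    ContinuousOn (fun y => |f y| ^ (q + 2)) (Ici 0) :=
  h.c0.abs.rpow_const fun _ _ => Or.inr (by linarith)

/-- a solution vanishing on the cone vanishes inside -/
lemma int_zero {α q : ℝ} {f f1 f2 : ℝ → ℝ} (h : Sol α q f f1 f2) (hα : 1 / 2 < α)
    (hq : q = 2 / α) (h1 : f 1 = 0) : ∀ y ∈ Icc (0 : ℝ) 1, f y = 0 := by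
  have hα0 : 0 < α := by linarith
  have hq0 : 0 < q := by rw [hq]; positivity
  set P : ℝ → ℝ := fun y => (1 - y ^ 2) * (y * f1 y + α * f y) ^ 2 / 2 - α * (1 - α) * f y ^ 2 / 2
    + y ^ 2 * |f y| ^ (q + 2) / (q + 2) with hP
  set E : ℝ → ℝ := fun y => y ^ (2 * α) * P y with hE
  have hEc : ContinuousOn E (Ici 0) := by
    have c0 := h.c0
    have c1 := h.c1
    have cG := h.cG hq0
    apply ContinuousOn.mul
    · exact continuousOn_id.rpow_const fun _ _ => Or.inr (by linarith)
    · have i : ContinuousOn (fun y : ℝ => y) (Ici 0) := continuousOn_id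
      exact ((((continuousOn_const.sub (i.pow 2)).mul (((i.mul c1).add (c0.const_mul α)).pow 2)).div_const
        2).sub (((c0.pow 2).const_mul (α * (1 - α))).div_const 2)).add
        (((i.pow 2).mul cG).div_const (q + 2))
  have hEd : ∀ y, 0 < y → HasDerivAt E
      ((2 * α - 1) * y ^ (2 * α) / y * (y * f1 y + α * f y) ^ 2) y := by
    intro y hy
    have a0 : HasDerivAt (fun y : ℝ => y ^ (2 * α)) (2 * α * (y ^ (2 * α) / y)) y := by
      have := Real.hasDerivAt_rpow_const (x := y) (p := 2 * α) (Or.inl hy.ne')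
      rwa [Real.rpow_sub_one hy.ne'] at this
    have i := hasDerivAt_id' y
    have d0 := h.d0 y hy
    have d1 := h.d1 y hy
    have dG := h.dG hq0 y hy
    have aP := (((((i.fun_pow 2).const_sub 1).fun_mul
      (((i.fun_mul d1).fun_add (d0.const_mul α)).fun_pow 2)).div_const 2).fun_sub
      (((d0.fun_pow 2).const_mul (α * (1 - α))).div_const 2)).fun_add
      (((i.fun_pow 2).fun_mul dG).div_const (q + 2))
    have := a0.fun_mul aP
    refine HasDerivAt.congr_deriv this ?_
    symm
    have ho := h.ode y hy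
    rw [abs_pow_split _ _ hq0]
    set G := |f y| ^ q
    set m := y ^ (2 * α)
    have hq2 : q + 2 = 2 * (α + 1) / α := by rw [hq]; field_simp; ring
    have e1 : (1 - y ^ 2) * f2 y = -((2 / y - 2 * (α + 1) * y) * f1 y) + α * (α + 1) * f y
      - G * f y := by linarith
    rw [hq2]
    simp only [Nat.cast_ofNat, Nat.add_one_sub_one, pow_one, mul_one, one_mul]
    have hα1 : α + 1 ≠ 0 := by linarith
    have e2 : (1 - y ^ 2) * (2 * (y * f1 y + α * f y) * (f1 y + y * f2 y + α * f1 y)) =
        2 * (y * f1 y + α * f y) * ((1 - y ^ 2) * (f1 y + α * f1 y) + y * ((1 - y ^ 2) * f2 y)) := by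
      ring
    rw [e2, e1]
    field_simp
    ring
  have hE0 : E 0 = 0 := by
    simp only [hE]
    rw [Real.zero_rpow (by linarith), zero_mul]
  have hE1 : E 1 = 0 := by
    simp only [hE, hP, h1]
    rw [abs_zero, Real.zero_rpow (by linarith)]
    simp
  have hmono : MonotoneOn E (Icc 0 1) := by
    apply monotoneOn_of_deriv_nonneg (convex_Icc 0 1) (hEc.mono Icc_subset_Ici_self)
    · intro y hy
      rw [interior_Icc] at hy
      exact (hEd y hy.1).differentiableAt.differentiableWithinAt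
    · intro y hy
      rw [interior_Icc] at hy
      rw [(hEd y hy.1).deriv]
      have := hy.1
      have : 0 < 2 * α - 1 := by linarith
      positivity
  have hEz : ∀ y ∈ Icc (0 : ℝ) 1, E y = 0 := by
    intro y hy
    have a := hmono ⟨le_rfl, zero_le_one⟩ hy hy.1
    have b := hmono hy ⟨zero_le_one, le_rfl⟩ hy.2
    linarith
  have hlin : ∀ y ∈ Ioo (0 : ℝ) 1, y * f1 y + α * f y = 0 := by
    intro y hy
    have a : HasDerivAt E 0 y := by
      apply (hasDerivAt_const y (0 : ℝ)).congr_of_eventuallyEq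
      filter_upwards [Ioo_mem_nhds hy.1 hy.2] with z hz using hEz z ⟨hz.1.le, hz.2.le⟩
    have b := (hEd y hy.1).unique a
    have c : 0 < (2 * α - 1) * y ^ (2 * α) / y := by
      have := hy.1
      have : 0 < 2 * α - 1 := by linarith
      positivity
    exact pow_eq_zero_iff two_ne_zero |>.1 ((mul_eq_zero.1 b).resolve_left c.ne')
  have hpos : ∀ y ∈ Ioc (0 : ℝ) 1, f y = 0 := by
    intro y hy
    set u : ℝ → ℝ := fun y => y ^ α * f y with hu
    have hud : ∀ z, 0 < z → HasDerivAt u (z ^ α / z * (z * f1 z + α * f z)) z := by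
      intro z hz
      have a0 : HasDerivAt (fun y : ℝ => y ^ α) (α * (z ^ α / z)) z := by
        have := Real.hasDerivAt_rpow_const (x := z) (p := α) (Or.inl hz.ne')
        rwa [Real.rpow_sub_one hz.ne'] at this
      refine HasDerivAt.congr_deriv (a0.fun_mul (h.d0 z hz)) ?_
      field_simp
      ring
    rcases hy.2.eq_or_lt with h' | h'
    · rw [h', h1]
    obtain ⟨c, hc, hc2⟩ := exists_hasDerivAt_eq_slope u
      (fun z => z ^ α / z * (z * f1 z + α * f z)) h'
      (fun z hz => (hud z (lt_of_lt_of_le hy.1 hz.1)).continuousAt.continuousWithinAt)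
      (fun z hz => hud z (lt_trans hy.1 hz.1))
    rw [hlin c ⟨lt_trans hy.1 hc.1, hc.2⟩, mul_zero] at hc2
    have h3 : u 1 - u y = 0 := by
      have : (1 : ℝ) - y ≠ 0 := by linarith
      field_simp at hc2
      linarith
    simp only [hu, h1, mul_zero, zero_sub, neg_eq_zero] at h3
    exact (mul_eq_zero.1 h3).resolve_left (Real.rpow_pos_of_pos hy.1 α).ne'
  intro y hy
  rcases hy.1.eq_or_lt with h' | h'
  · rw [← h']
    have a : Tendsto f (𝓝[>] 0) (𝓝 (f 0)) :=
      (h.c0 0 self_mem_Ici).tendsto.mono_left (nhdsWithin_mono _ Ioi_subset_Ici_self)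
    have b : Tendsto f (𝓝[>] 0) (𝓝 0) := by
      apply tendsto_const_nhds.congr'
      filter_upwards [Ioc_mem_nhdsGT (zero_lt_one' ℝ)] with z hz using (hpos z hz).symm
    exact tendsto_nhds_unique a b
  · exact hpos y ⟨h', hy.2⟩

/-- no solution has its value on the cone strictly between `0` and the constant solution -/
lemma int_no {α q : ℝ} {f f1 f2 : ℝ → ℝ} (h : Sol α q f f1 f2) (hα : 1 / 2 < α)
    (hq : q = 2 / α) (hb : 0 < f 1) (h1 : f 1 ^ q < α * (α + 1)) : False := by
  have hα0 : 0 < α := by linarith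
  have hq0 : 0 < q := by rw [hq]; positivity
  set D : ℝ := 2 * α + 1 with hD
  have hD0 : 0 < D := by linarith
  set A : ℝ := (2 * α + 3) / D with hA
  set B : ℝ := (2 * α - 1) * (α + 1) / D with hB
  have hk : 0 < 2 * α - 1 := by linarith
  have hA0 : 0 < A := by positivity
  have hB0 : 0 < B := by positivity
  set P : ℝ → ℝ := fun y => -(y * (1 - y ^ 2) * f1 y ^ 2 / 2) - α / D * (2 - D * y ^ 2) * f y * f1 y
    + y * (α * (α + 1) * f y ^ 2 - |f y| ^ (q + 2)) / (q + 2) with hP
  set m : ℝ → ℝ := fun y => y ^ A * (1 - y ^ 2) ^ B with hm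
  set X : ℝ → ℝ := fun y => m y * P y with hX
  have hXc : ContinuousOn X (Ici 0) := by
    have c0 := h.c0
    have c1 := h.c1
    have cG := h.cG hq0
    apply ContinuousOn.mul
    · apply ContinuousOn.mul
      · exact continuousOn_id.rpow_const fun _ _ => Or.inr hA0.le
      · exact ContinuousOn.rpow_const (by fun_prop) fun _ _ => Or.inr hB0.le
    · have i : ContinuousOn (fun y : ℝ => y) (Ici 0) := continuousOn_id
      exact ((((i.mul (continuousOn_const.sub (i.pow 2))).mul (c1.pow 2)).div_const 2).neg.sub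
        ((((continuousOn_const.sub ((i.pow 2).const_mul D)).const_mul (α / D)).mul c0).mul c1)).add
        ((i.mul (((c0.pow 2).const_mul (α * (α + 1))).sub cG)).div_const (q + 2))
  have hm0 : ∀ y ∈ Ioo (0 : ℝ) 1, 0 < m y := by
    intro y hy
    have : 0 < 1 - y ^ 2 := by nlinarith [hy.1, hy.2]
    have := hy.1
    positivity
  have hXd : ∀ y ∈ Ioo (0 : ℝ) 1, HasDerivAt X
      (2 * f y * f1 y * (α * (2 * α - 1) / D ^ 2 * (m y / (y * (1 - y ^ 2))))) y := by
    intro y hy
    have hy0 := hy.1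
    have hy1 : 0 < 1 - y ^ 2 := by nlinarith [hy.1, hy.2]
    have i := hasDerivAt_id' y
    have a0 : HasDerivAt (fun y : ℝ => y ^ A) (A * (y ^ A / y)) y := by
      have := Real.hasDerivAt_rpow_const (x := y) (p := A) (Or.inl hy0.ne')
      rwa [Real.rpow_sub_one hy0.ne'] at this
    have a1 : HasDerivAt (fun y : ℝ => (1 - y ^ 2) ^ B)
        (-(2 * y) * B * ((1 - y ^ 2) ^ B / (1 - y ^ 2))) y := by
      have := ((i.fun_pow 2).const_sub 1).rpow_const (p := B) (Or.inl hy1.ne')
      rw [Real.rpow_sub_one hy1.ne'] at this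
      simpa using this
    have d0 := h.d0 y hy0
    have d1 := h.d1 y hy0
    have dG := h.dG hq0 y hy0
    have aP := (((((i.fun_mul ((i.fun_pow 2).const_sub 1)).fun_mul (d1.fun_pow 2)).div_const
      2).fun_neg.fun_sub ((((((i.fun_pow 2).const_mul D).const_sub 2).const_mul
      (α / D)).fun_mul d0).fun_mul d1)).fun_add
      ((i.fun_mul (((d0.fun_pow 2).const_mul (α * (α + 1))).fun_sub dG)).div_const (q + 2)))
    have := (a0.fun_mul a1).fun_mul aP
    refine HasDerivAt.congr_deriv this ?_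
    symm
    have ho := h.ode y hy0
    rw [abs_pow_split _ _ hq0]
    simp only [hm]
    set G := |f y| ^ q
    set m1 := y ^ A
    set m2 := (1 - y ^ 2) ^ B
    have hq2 : q + 2 = 2 * (α + 1) / α := by rw [hq]; field_simp; ring
    have e1 : f2 y = (-((2 / y - 2 * (α + 1) * y) * f1 y) + α * (α + 1) * f y
      - G * f y) / (1 - y ^ 2) := by
      rw [eq_div_iff hy1.ne']; linarith
    rw [hq2, e1, hA, hB]
    simp only [Nat.cast_ofNat, Nat.add_one_sub_one, pow_one, mul_one, one_mul]
    have hα1 : α + 1 ≠ 0 := by linarith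
    field_simp
    rw [hD]
    ring
  have hX0 : X 0 = 0 := by
    simp only [hX, hm]
    rw [Real.zero_rpow hA0.ne', zero_mul, zero_mul]
  have hX1 : X 1 = 0 := by
    simp only [hX, hm]
    rw [one_pow, sub_self, Real.zero_rpow hB0.ne', mul_zero, zero_mul]
  have h11 : f1 1 < 0 := by
    have ho := h.ode 1 one_pos
    rw [abs_of_pos hb] at ho
    have e : 2 * α * f1 1 = (f 1 ^ q - α * (α + 1)) * f 1 := by
      norm_num at ho; linarith
    have : (f 1 ^ q - α * (α + 1)) * f 1 < 0 := mul_neg_of_neg_of_pos (by linarith) hb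
    by_contra hc
    push Not at hc
    nlinarith
  have hS : IsCompact ({0} ∪ (Icc 0 1 ∩ f1 ⁻¹' Ici 0)) :=
    isCompact_singleton.union (isCompact_Icc.of_isClosed_subset
      ((h.c1.mono Icc_subset_Ici_self).preimage_isClosed_of_isClosed isClosed_Icc isClosed_Ici)
      inter_subset_left)
  obtain ⟨s, hs1, hs3⟩ := hS.exists_isGreatest ⟨0, Or.inl rfl⟩
  have hs0 : 0 ≤ s := hs3 (Or.inl rfl)
  have hs2 : s < 1 := by
    rcases hs1 with h' | h'
    · rw [h']; exact one_pos
    · rcases h'.1.2.eq_or_lt with h'' | h''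
      · have : 0 ≤ f1 s := h'.2
        rw [h''] at this; linarith
      · exact h''
  have hn : ∀ y ∈ Ioo s 1, f1 y < 0 := by
    intro y hy
    by_contra hc
    push Not at hc
    have := hs3 (Or.inr ⟨⟨hs0.trans hy.1.le, hy.2.le⟩, hc⟩)
    linarith [hy.1]
  have hsub : Icc s 1 ⊆ Ici 0 := fun y hy => hs0.trans hy.1
  have hanti : AntitoneOn f (Icc s 1) := by
    apply antitoneOn_of_deriv_nonpos (convex_Icc s 1) (h.c0.mono hsub)
    · intro y hy
      rw [interior_Icc] at hy
      exact (h.d0 y (lt_of_le_of_lt hs0 hy.1)).differentiableAt.differentiableWithinAt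
    · intro y hy
      rw [interior_Icc] at hy
      rw [(h.d0 y (lt_of_le_of_lt hs0 hy.1)).deriv]
      exact (hn y hy).le
  have hfp : ∀ y ∈ Icc s 1, 0 < f y := fun y hy =>
    lt_of_lt_of_le hb (hanti hy ⟨hs2.le, le_rfl⟩ hy.2)
  have hXa : StrictAntiOn X (Icc s 1) := by
    apply strictAntiOn_of_deriv_neg (convex_Icc s 1) (hXc.mono hsub)
    intro y hy
    rw [interior_Icc] at hy
    have hy' : y ∈ Ioo (0 : ℝ) 1 := ⟨lt_of_le_of_lt hs0 hy.1, hy.2⟩
    rw [(hXd y hy').deriv]
    have a := hm0 y hy'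
    have b := hfp y ⟨hy.1.le, hy.2.le⟩
    have c := hn y hy
    have hy1 : 0 < 1 - y ^ 2 := by nlinarith [hy'.1, hy'.2]
    have hy0 := hy'.1
    apply mul_neg_of_neg_of_pos
    · exact mul_neg_of_pos_of_neg (by positivity) c
    · positivity
  have hXs : 0 < X s := by
    have := hXa ⟨le_rfl, hs2.le⟩ ⟨hs2.le, le_rfl⟩ hs2
    linarith
  have hs4 : 0 < s := by
    rcases hs0.eq_or_lt with h' | h'
    · rw [← h', hX0] at hXs; exact absurd hXs (lt_irrefl _)
    · exact h'
  have hev : ∀ᶠ y in 𝓝[>] s, f1 y < 0 := by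
    filter_upwards [Ioo_mem_nhdsGT hs2] with y hy using hn y hy
  have hz : f1 s = 0 := by
    apply le_antisymm
    · have hc : Tendsto f1 (𝓝[>] s) (𝓝 (f1 s)) :=
        (h.d1 s hs4).continuousAt.tendsto.mono_left nhdsWithin_le_nhds
      exact le_of_tendsto hc (hev.mono fun y hy => hy.le)
    · rcases hs1 with h' | h'
      · exact absurd h' hs4.ne'
      · exact h'.2
  have hPs : 0 < P s := (mul_pos_iff_of_pos_left (hm0 s ⟨hs4, hs2⟩)).1 hXs
  have hfs := hfp s ⟨le_rfl, hs2.le⟩
  have hG : |f s| ^ q < α * (α + 1) := by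
    simp only [hP, hz] at hPs
    rw [abs_pow_split _ _ hq0] at hPs
    have a : 0 < s * (α * (α + 1) * f s ^ 2 - |f s| ^ q * f s ^ 2) / (q + 2) := by
      simpa using hPs
    have b := (div_pos_iff_of_pos_right (by linarith : 0 < q + 2)).1 a
    have c := (mul_pos_iff_of_pos_left hs4).1 b
    have d : 0 < f s ^ 2 := by positivity
    by_contra hc
    push Not at hc
    nlinarith
  have h2 : 0 < f2 s := by
    have ho := h.ode s hs4
    rw [hz] at ho
    have h3 : 0 < 1 - s ^ 2 := by nlinarith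
    by_contra hc'
    push Not at hc'
    nlinarith
  obtain ⟨y, hy1, hy2⟩ := (hev.and (right_pos (h.d1 s hs4) hz h2)).exists
  linarith

/-- a solution tending to zero at infinity vanishes -/
theorem Sol.eq_zero {α q : ℝ} {f f1 f2 : ℝ → ℝ} (h : Sol α q f f1 f2) (hα : 1 / 2 < α)
    (hq : q = 2 / α) (hq1 : 1 < q) (hd : Tendsto f atTop (𝓝 0)) : ∀ y, 0 ≤ y → f y = 0 := by
  have hα0 : 0 < α := by linarith
  have pos : ∀ {f f1 f2 : ℝ → ℝ}, Sol α q f f1 f2 → Tendsto f atTop (𝓝 0) → ¬ 0 < f 1 := by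
    intro f f1 f2 h hd hb
    have key : ¬ ∀ y, 1 ≤ y → f 1 ≤ f y := by
      intro hh
      have := ge_of_tendsto hd ((eventually_ge_atTop 1).mono hh)
      linarith
    rcases lt_trichotomy (f 1 ^ q) (α * (α + 1)) with h' | h' | h'
    · exact int_no h hα hq hb h'
    · refine key fun y hy => (ext_unique h hα hq1 (f 1) ?_ rfl y hy).ge
      rw [abs_of_pos hb, h', sub_self]
    · exact key (ext_grow h hα0 (by linarith) hb h')
  have h1 : f 1 = 0 := by
    have a := pos h hd
    have b := pos h.neg (by simpa using hd.neg)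
    push Not at a b
    linarith
  intro y hy
  rcases le_total y 1 with h' | h'
  · exact int_zero h hα hq h1 y ⟨hy, h'⟩
  · exact ext_unique h hα hq1 0 (by simp) h1 y h'

end Pool.Agent.H233Z.Wave
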